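import Pool.Agent.K1H56.CB.Tab

/-! # An adder on the field with 2 ^ 6 elements -/

set_option autoImplicit false
set_option maxRecDepth 100000

namespace Pool.Agent.K1H56.CB.T6

open Pool.Agent.K1H56.CB

/-- table lookup -/
def get (A i : ℕ) : ℕ := (A >>> (6 * i)) % 64

/-- packed table -/
def En : ℕ := 0x61c79f7ff9fb97a95af468d9f266ddfa76fd9bb162e4489973e1c387891a75efc78f993a142858f060c183810204081

/-- table -/
def E (i : ℕ) : ℕ := get En i

/-- packed table -/
def Gn : ℕ := 0xeb9ed456af1dae75b27aef4aa37b25cf55cfbd17e22d9f85e13a5c9b1b49da4d0e42160449bc088cd803687302181000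

/-- table -/
def G (i : ℕ) : ℕ := get Gn i

/-- packed table -/
def Zn : ℕ := 0x529d539e93a24cced5698845e2659d5737af1b3635f4038aef294872c43f2abbe1bbe15f48c267db70681f9880c180

/-- table -/
def Z (i : ℕ) : ℕ := get Zn i

/-- packed table -/
def Ln : ℕ := 0x120acf9b6c55f8ab2a95b8d2871130e6e570ee4f85a9891a47b39c3307de959be1702a2eb25b504210dccc4bd475300

/-- table -/
def L (i : ℕ) : ℕ := get Ln i

/-- packed table -/
def Tn : ℕ := 0x1410000f7240000801ce01202601d0337c0015000010000000000e40000a0d5809450c00002010110007804c99ca2c0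

/-- table -/
def T (i : ℕ) : ℕ := get Tn i

/-- packed table -/
def Wn : ℕ := 0x16d31a891112b32f50a34e0f289473d431e66c60e5f2e7add27309ef6aeaed6e4f9056974317805f36688623def6840

/-- table -/
def W (i : ℕ) : ℕ := get Wn i

theorem tab : Tab 6 63 67 E G Z L T W where
  n1 := by norm_num
  n2 := by norm_num
  E0 := by decide +kernel
  En := by decide +kernel
  Es := by decide +kernel
  El := by decide +kernel
  GE := by decide +kernel
  EG := by decide +kernel
  Zc := by decide +kernel
  Z0 := by decide +kernel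
  L0 := by decide +kernel
  Ll := by decide +kernel
  Ti := by decide +kernel
  Wi := by decide +kernel

theorem cbhr (m : ℕ) (hm : Odd m) : ∃ R S, Pool.Agent.K1H32.CB.IsCBHR (2 ^ (6 * m)) R S :=
  cbhr_tab tab (by norm_num) (fun K _ _ => natDegree_ev K 6 67 (by decide)) m hm

end Pool.Agent.K1H56.CB.T6
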