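import Pool.Agent.K1H32.CB.Main

/-! # Adders given by tables of logarithms in a subfield with `2 ^ a` elements -/

set_option autoImplicit false

namespace Pool.Agent.K1H56.CB

open Finset Pool.Agent.K1H32.CB

section ring
variable {R : Type} [CommRing R] [CharP R 2]

/-- the polynomial in `x` of degree at most `a` with the bits of `v` -/
def ev (x : R) (a v : ℕ) : R := ∑ j ∈ range (a + 1), if v.testBit j then x ^ j else 0

lemma ev_xor (x : R) (a v w : ℕ) : ev x a (v ^^^ w) = ev x a v + ev x a w := by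
  unfold ev
  rw [← Finset.sum_add_distrib]
  refine Finset.sum_congr rfl fun j _ => ?_
  rw [Nat.testBit_xor]
  have h2 : x ^ j + x ^ j = 0 := CharTwo.add_self_eq_zero _
  cases v.testBit j <;> cases w.testBit j <;> simp [h2]

omit [CharP R 2] in
lemma ev_one (x : R) (a : ℕ) : ev x a 1 = 1 := by
  unfold ev
  rw [Finset.sum_range_succ']
  have h : ∀ j, Nat.testBit 1 (j + 1) = false := by
    intro j
    rw [Nat.testBit_succ]
    simp
  simp [h]

omit [CharP R 2] in
lemma ev_two_mul (x : R) (a v : ℕ) (hv : v < 2 ^ a) : ev x a (2 * v) = x * ev x a v := by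
  unfold ev
  rw [Finset.sum_range_succ', Finset.sum_range_succ, mul_add, Finset.mul_sum]
  have h0 : (2 * v).testBit 0 = false := by simp
  have h1 : v.testBit a = false := Nat.testBit_lt_two_pow hv
  have h2 : ∀ j, (2 * v).testBit (j + 1) = v.testBit j := by
    intro j
    rw [Nat.testBit_succ]
    congr 1
    omega
  simp only [h0, h1, h2, Bool.false_eq_true, if_false, mul_zero, add_zero]
  refine Finset.sum_congr rfl fun j _ => ?_
  by_cases h : v.testBit j = true
  · simp [h, pow_succ, mul_comm]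
  · simp [h]

/-- multiplication by `x` modulo the polynomial `poly` -/
def step (a poly v : ℕ) : ℕ := if 2 * v < 2 ^ a then 2 * v else (2 * v) ^^^ poly

lemma ev_step (x : R) (a poly v : ℕ) (hv : v < 2 ^ a) :
    ∃ b : R, x * ev x a v = ev x a poly * b + ev x a (step a poly v) := by
  unfold step
  split_ifs with h
  · exact ⟨0, by rw [mul_zero, zero_add, ev_two_mul x a v hv]⟩
  · refine ⟨1, ?_⟩
    rw [ev_xor, ev_two_mul x a v hv, mul_one]
    have h2 : ev x a poly + ev x a poly = 0 := CharTwo.add_self_eq_zero _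
    linear_combination -h2

lemma pow_eq (x : R) (a n poly : ℕ) (E : ℕ → ℕ) (h0 : E 0 = 1)
    (hs : ∀ i < n, E (i + 1) = step a poly (E i)) (hl : ∀ i < n, E i < 2 ^ a) :
    ∀ i ≤ n, ∃ b : R, x ^ i = ev x a poly * b + ev x a (E i) := by
  intro i
  induction i with
  | zero => intro _; exact ⟨0, by rw [h0, ev_one]; ring⟩
  | succ i ih =>
    intro hi
    obtain ⟨b, hb⟩ := ih (by omega)
    obtain ⟨c, hc⟩ := ev_step x a poly (E i) (hl i (by omega))
    refine ⟨x * b + c, ?_⟩
    rw [hs i (by omega)]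
    calc x ^ (i + 1) = x * x ^ i := by ring
      _ = x * (ev x a poly * b) + x * ev x a (E i) := by rw [hb]; ring
      _ = _ := by rw [hc]; ring

end ring

variable {F : Type} [Field F] [CharP F 2]

open Polynomial in
/-- a root of the polynomial `poly` in a finite field -/
lemma exists_root [Fintype F] (a n poly : ℕ) (E : ℕ → ℕ) (ha : 0 < a) (hn : 0 < n)
    (h0 : E 0 = 1) (hs : ∀ i < n, E (i + 1) = step a poly (E i)) (hl : ∀ i < n, E i < 2 ^ a)
    (hE : E n = 1) (hd : n ∣ Fintype.card F - 1)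
    (hdeg : (ev (X : F[X]) a poly).natDegree = a) :
    ∃ α : F, ev α a poly = 0 := by
  classical
  obtain ⟨q, hq⟩ := pow_eq (X : F[X]) a n poly E h0 hs hl n le_rfl
  rw [hE, ev_one] at hq
  set P : F[X] := ev (X : F[X]) a poly with hP
  have hPQ : P * q = X ^ n - 1 := by rw [hq]; ring
  have hne : (X ^ n - 1 : F[X]) ≠ 0 := by
    have := monic_X_pow_sub_C (1 : F) hn.ne'
    rw [C_1] at this
    exact this.ne_zero
  have hP0 : P ≠ 0 := by rintro h; rw [h, zero_mul] at hPQ; exact hne hPQ.symm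
  have hq0 : q ≠ 0 := by rintro h; rw [h, mul_zero] at hPQ; exact hne hPQ.symm
  have hnd : a + q.natDegree = n := by
    have h1 := natDegree_mul hP0 hq0
    rw [hPQ, hdeg] at h1
    have h2 : (X ^ n - 1 : F[X]).natDegree = n := by
      have := natDegree_X_pow_sub_C (R := F) (n := n) (r := 1)
      rwa [C_1] at this
    omega
  have h1 : ∃ x : Fˣ, orderOf x = n := by
    have h2 : n ∣ Fintype.card Fˣ := by rw [Fintype.card_units]; exact hd
    have h3 := IsCyclic.card_orderOf_eq_totient (α := Fˣ) (d := n) h2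
    by_contra hne
    push Not at hne
    have h4 : (Finset.univ.filter fun a : Fˣ => orderOf a = n) = ∅ := by
      apply Finset.filter_false_of_mem
      intro x _; exact hne x
    rw [h4, Finset.card_empty] at h3
    have h5 : 0 < Nat.totient n := Nat.totient_pos.2 hn
    omega
  obtain ⟨x, hx⟩ := h1
  have hp : IsPrimitiveRoot (x : F) n := by
    rw [IsPrimitiveRoot.coe_units_iff, ← hx]
    exact IsPrimitiveRoot.orderOf x
  by_contra hno
  push Not at hno
  have hev : ∀ α : F, P.eval α = ev α a poly := by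
    intro α
    rw [hP]
    unfold ev
    rw [eval_finsetSum]
    refine Finset.sum_congr rfl fun j _ => ?_
    split_ifs <;> simp
  have hsub : nthRootsFinset n (1 : F) ⊆ q.roots.toFinset := by
    intro z hz
    rw [Multiset.mem_toFinset, mem_roots hq0, IsRoot.def]
    rw [mem_nthRootsFinset hn] at hz
    have h2 : (P * q).eval z = 0 := by rw [hPQ]; simp [hz]
    rw [eval_mul] at h2
    rcases mul_eq_zero.1 h2 with h3 | h3
    · rw [hev] at h3; exact absurd h3 (hno z)
    · exact h3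
  have hc := Finset.card_le_card hsub
  rw [hp.card_nthRootsFinset] at hc
  have h6 : q.roots.toFinset.card ≤ q.natDegree :=
    (Multiset.toFinset_card_le _).trans (card_roots' q)
  omega

open Polynomial in
omit [Field F] [CharP F 2] in
theorem natDegree_ev (K : Type) [Field K] (a poly : ℕ) (h : poly.testBit a = true) :
    (ev (X : K[X]) a poly).natDegree = a := by
  unfold ev
  rw [Finset.sum_range_succ, if_pos h]
  have h1 : (∑ j ∈ range a, if poly.testBit j = true then (X : K[X]) ^ j else 0) ∈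
      degreeLT K a := by
    refine Submodule.sum_mem _ fun j hj => ?_
    split_ifs
    · rw [mem_degreeLT, degree_X_pow]
      exact_mod_cast Finset.mem_range.1 hj
    · exact Submodule.zero_mem _
  rw [mem_degreeLT] at h1
  have h2 : ((∑ j ∈ range a, if poly.testBit j = true then (X : K[X]) ^ j else 0) +
      (X : K[X]) ^ a).degree = ((X : K[X]) ^ a).degree :=
    degree_add_eq_right_of_degree_lt (by rw [degree_X_pow]; exact h1)
  rw [degree_X_pow] at h2
  exact natDegree_eq_of_degree_eq_some h2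

/-- the tables -/
structure Tab (a n poly : ℕ) (E G Z L T W : ℕ → ℕ) : Prop where
  n1 : n + 1 = 2 ^ a
  n2 : 1 < n
  E0 : E 0 = 1
  En : E n = 1
  Es : ∀ i < n, E (i + 1) = step a poly (E i)
  El : ∀ i < n, E i < 2 ^ a
  GE : ∀ i < n, G (E i) = i
  EG : ∀ v < 2 ^ a, v ≠ 0 → G v < n ∧ E (G v) = v
  Zc : ∀ i < n, i ≠ 0 → E i ^^^ 1 = E (Z i) ∧ Z i < n ∧ Z i ≠ 0 ∧ L (Z i) = L i ∧ Z (Z i) = i
  Z0 : Z 0 = 0
  L0 : L 0 = 0
  Ll : ∀ i < n, L i < n
  Ti : ∀ i < n, T (L i) = i ∨ (Z (T (L i)) = i ∧ T (L i) < n)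
  Wi : ∀ i < n, W ((L i + (n - i)) % n) = i

variable {a n poly : ℕ} {E G Z L T W : ℕ → ℕ}

lemma Tab.L_inj (t : Tab a n poly E G Z L T W) : ∀ i < n, ∀ j < n, L i = L j →
    j = i ∨ (i ≠ 0 ∧ j = Z i) := by
  intro i hi j hj h
  have hZZ : ∀ s < n, s ≠ 0 → Z (Z s) = s := fun s hs h0 => (t.Zc s hs h0).2.2.2.2
  have h1 := t.Ti i hi
  have h2 := t.Ti j hj
  rw [← h] at h2
  rcases h1 with h1 | ⟨h1, h1'⟩ <;> rcases h2 with h2 | ⟨h2, h2'⟩
  · left; rw [← h1, ← h2]
  · rw [h1] at h2
    by_cases h0 : i = 0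
    · left; rw [h0, t.Z0] at h2; rw [h0, ← h2]
    · right; exact ⟨h0, h2.symm⟩
  · rw [h2] at h1
    by_cases h0 : j = 0
    · left; rw [h0, t.Z0] at h1; rw [h0, ← h1]
    · right
      refine ⟨?_, ?_⟩
      · rw [← h1]; exact (t.Zc j hj h0).2.2.1
      · rw [← h1]; exact (hZZ j hj h0).symm
  · left; rw [← h1, ← h2]

lemma Tab.L_col (t : Tab a n poly E G Z L T W) : ∀ i < n, ∀ j < n,
    (L i + j) % n = (L j + i) % n → i = j := by
  intro i hi j hj h
  have h1 : (L i + (n - i)) % n = (L j + (n - j)) % n := by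
    have h2 : L i + j ≡ L j + i [MOD n] := h
    have h3 : L i + (n - i) + (i + j) ≡ L j + (n - j) + (i + j) [MOD n] := by
      have e1 : L i + (n - i) + (i + j) = L i + j + n := by omega
      have e2 : L j + (n - j) + (i + j) = L j + i + n := by omega
      rw [e1, e2]
      exact Nat.ModEq.add_right n h2
    exact Nat.ModEq.add_right_cancel' _ h3
  rw [← t.Wi i hi, ← t.Wi j hj, h1]

section
variable (t : Tab a n poly E G Z L T W) {α : F} (hα : ev α a poly = 0)
include t hα

lemma Tab.pow : ∀ i ≤ n, α ^ i = ev α a (E i) := by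
  intro i hi
  obtain ⟨b, hb⟩ := pow_eq α a n poly E t.E0 t.Es t.El i hi
  rw [hb, hα, zero_mul, zero_add]

lemma Tab.pow_n : α ^ n = 1 := by rw [t.pow hα n le_rfl, t.En, ev_one]

lemma Tab.ne_zero : α ≠ 0 := by
  intro h
  have := t.pow_n hα
  rw [h, zero_pow (by have := t.n2; omega)] at this
  exact zero_ne_one this

lemma Tab.ev_ne (v : ℕ) (hv : v < 2 ^ a) (h0 : v ≠ 0) : ev α a v ≠ 0 := by
  obtain ⟨h1, h2⟩ := t.EG v hv h0
  rw [← h2, ← t.pow hα _ h1.le]
  exact pow_ne_zero _ (t.ne_zero hα)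

lemma Tab.prim : IsPrimitiveRoot α n := by
  refine IsPrimitiveRoot.mk_of_lt α (by have := t.n2; omega) (t.pow_n hα) fun l hl hln h => ?_
  have h1 : ev α a (E l ^^^ E 0) = 0 := by
    rw [ev_xor, ← t.pow hα l hln.le, h, t.E0, ev_one]
    exact CharTwo.add_self_eq_zero _
  have h2 : E l ^^^ E 0 < 2 ^ a := Nat.xor_lt_two_pow (t.El l hln) (t.El 0 (by omega))
  have h3 : E l ^^^ E 0 = 0 := by
    by_contra hne
    exact t.ev_ne hα _ h2 hne h1
  have h4 : E l = E 0 := Nat.xor_eq_zero_iff.1 h3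
  have h5 : l = 0 := by rw [← t.GE l hln, h4, t.GE 0 (by omega)]
  omega

lemma Tab.zech (i : ℕ) (hi : i < n) (h0 : i ≠ 0) : α ^ i + 1 = α ^ Z i := by
  obtain ⟨h1, h2, -⟩ := t.Zc i hi h0
  rw [t.pow hα i hi.le, t.pow hα (Z i) h2.le, ← h1, ev_xor, ev_one]

end

open Classical in
/-- logarithm with the base `α`, and `0` if there is none -/
noncomputable def lg (n : ℕ) (α u : F) : ℕ :=
  if h : ∃ i, i < n ∧ α ^ i = u then Classical.choose h else 0

omit [CharP F 2] in
lemma lg_pow (n : ℕ) (α : F) (hα : IsPrimitiveRoot α n) (i : ℕ) (hi : i < n) :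
    lg n α (α ^ i) = i := by
  unfold lg
  have h : ∃ j, j < n ∧ α ^ j = α ^ i := ⟨i, hi, rfl⟩
  rw [dif_pos h]
  obtain ⟨h1, h2⟩ := Classical.choose_spec h
  exact hα.pow_inj h1 hi h2

omit [CharP F 2] in
lemma lg_zero (n : ℕ) (α : F) (hα : α ≠ 0) : lg n α 0 = 0 := by
  unfold lg
  rw [dif_neg]
  rintro ⟨i, -, hi⟩
  exact pow_ne_zero i hα hi

/-- an adder on a subfield given by tables extends to every extension of odd degree -/
theorem isAdder_tab (t : Tab a n poly E G Z L T W) (α : F) (hα' : ev α a poly = 0) (m : ℕ)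
    (hm : Odd m) (hF : ∀ v : F, v ^ (2 ^ a) ^ m = v) : ∃ h : F → F, IsAdder h := by
  have hα := t.prim hα'
  have hα0 : α ≠ 0 := t.ne_zero hα'
  have hn0 : 0 < n := by have := t.n2; omega
  have hnn : α ^ n = 1 := hα.pow_eq_one
  have hcase : ∀ u : F, u ^ 2 ^ a = u → u = 0 ∨ ∃ i, i < n ∧ u = α ^ i := by
    intro u hu
    by_cases h0 : u = 0
    · exact Or.inl h0
    right
    have h1 : u ^ n = 1 := by
      apply mul_right_cancel₀ h0
      rw [one_mul, ← pow_succ, t.n1]; exact hu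
    haveI : NeZero n := ⟨hn0.ne'⟩
    obtain ⟨i, hi, h⟩ := hα.eq_pow_of_pow_eq_one h1
    exact ⟨i, hi, h.symm⟩
  have hl0 := lg_zero n α hα0
  have hlp := lg_pow n α hα
  have hL0 : L 0 = 0 := t.L0
  refine ⟨extend a fun u => α ^ L (lg n α u), isAdder_extend a m hm hF _ ?_ ?_ ?_⟩
  · intro u hu
    refine ⟨?_, pow_ne_zero _ hα0, ?_⟩
    · show (α ^ L (lg n α u)) ^ 2 ^ a = α ^ L (lg n α u)
      rw [← pow_mul, mul_comm, pow_mul, show α ^ 2 ^ a = α by
        rw [← t.n1, pow_succ, hnn, one_mul]]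
    · show α ^ L (lg n α (u + 1)) = α ^ L (lg n α u)
      rcases hcase u hu with rfl | ⟨i, hi, rfl⟩
      · rw [zero_add, hl0, show (1 : F) = α ^ 0 by simp, hlp 0 hn0]
      · by_cases h0 : i = 0
        · subst h0
          rw [hlp 0 hi, pow_zero, self_add, hl0]
        · obtain ⟨-, h2, -, h1, -⟩ := t.Zc i hi h0
          rw [t.zech hα' i hi h0, hlp i hi, hlp _ h2, h1]
  · intro u v hu hv huv
    change α ^ L (lg n α u) = α ^ L (lg n α v) at huv
    rcases hcase u hu with rfl | ⟨i, hi, rfl⟩ <;> rcases hcase v hv with rfl | ⟨j, hj, rfl⟩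
    · exact Or.inl rfl
    · rw [hl0, hlp j hj] at huv
      rcases t.L_inj 0 hn0 j hj (hα.pow_inj (t.Ll 0 hn0) (t.Ll j hj) huv) with h | h
      · subst h; right; simp
      · exact absurd rfl h.1
    · rw [hl0, hlp i hi] at huv
      rcases t.L_inj i hi 0 hn0 (hα.pow_inj (t.Ll i hi) (t.Ll 0 hn0) huv) with h | h
      · subst h; right; rw [pow_zero, self_add]
      · exact absurd h.2.symm (t.Zc i hi h.1).2.2.1
    · rw [hlp j hj, hlp i hi] at huv
      rcases t.L_inj i hi j hj (hα.pow_inj (t.Ll i hi) (t.Ll j hj) huv) with h | h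
      · subst h; left; rfl
      · right; rw [h.2, t.zech hα' i hi h.1]
  · intro u v hu hv hu0 hv0 huv
    change α ^ L (lg n α u) * v = α ^ L (lg n α v) * u at huv
    rcases hcase u hu with rfl | ⟨i, hi, rfl⟩
    · exact absurd rfl hu0
    rcases hcase v hv with rfl | ⟨j, hj, rfl⟩
    · exact absurd rfl hv0
    rw [hlp j hj, hlp i hi, ← pow_add, ← pow_add] at huv
    have hmod : ∀ k : ℕ, α ^ k = α ^ (k % n) := by
      intro k
      conv_lhs => rw [← Nat.div_add_mod k n, pow_add, pow_mul, hnn, one_pow, one_mul]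
    rw [hmod (L i + j), hmod (L j + i)] at huv
    rw [t.L_col i hi j hj (hα.pow_inj (Nat.mod_lt _ hn0) (Nat.mod_lt _ hn0) huv)]

open Polynomial in
/-- rotations from tables -/
theorem cbhr_tab (t : Tab a n poly E G Z L T W) (ha : 0 < a)
    (hdeg : ∀ (K : Type) [Field K] [CharP K 2], (ev (X : K[X]) a poly).natDegree = a)
    (m : ℕ) (hm : Odd m) : ∃ R S, IsCBHR (2 ^ (a * m)) R S := by
  haveI : Fact (Nat.Prime 2) := ⟨Nat.prime_two⟩
  have hk0 : a * m ≠ 0 := by
    have h1 : 0 < m := hm.pos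
    exact (Nat.mul_pos ha h1).ne'
  letI : Fintype (GaloisField 2 (a * m)) := Fintype.ofFinite _
  have hn : n = 2 ^ a - 1 := by have := t.n1; omega
  obtain ⟨α, hα⟩ := exists_root (F := GaloisField 2 (a * m)) a n poly E ha
    (by have := t.n2; omega) t.E0 t.Es t.El t.En (by
      rw [← Nat.card_eq_fintype_card, GaloisField.card 2 _ hk0, pow_mul, hn]
      have := Nat.sub_dvd_pow_sub_pow (2 ^ a) 1 m
      simpa using this) (hdeg _)
  refine cbhr_of_adder (a * m) hk0 (isAdder_tab t α hα m hm fun v => ?_)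
  have := pow_card (a * m) hk0 v
  rwa [pow_mul] at this

end Pool.Agent.K1H56.CB
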